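import Pool.Agent.Q162.Jack.Main

/-!
# Set-partition quasisymmetric expansion of one-row Jack polynomials

For every `n ≥ 1` the normalised one-row Jack polynomial equals
`∑_π ∑_β α(α-1)⋯(α-|β|+1) F_{Des(P(f_β(π)))}`.

Proof idea. Both sides are evaluated at `α = m ∈ ℕ`. The factor `α(α-1)⋯(α-|β|+1)` counts
colourings `c` of the letters with `m` colours whose classes are the blocks of `β`. The descents of
`P(w)` are the `i` such that `i+1` is to the left of `i` in `w`, so the coefficient of `x^a` on the
right counts pairs `(π, c)` such that the refill `w` of `π` has the letters of each of the
intervals given by `a` in increasing order. These correspond to triples `(u, σ, w)`, `u = c ∘ π`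
a word and `σ` a permutation stabilizing `u`; sorting shows that their number is `n!` times the
number of words with `m` letters that increase weakly on each interval.
-/

namespace Pool.Agent.Results.MP_d77547_co.SetPartitionExpansion

open Finset Q162Jack

/-- For every `n` the normalised one-row Jack polynomial of degree `n`, as a formal power series in
`x_0, x_1, …` over `ℤ[α]`, equals the sum over all permutations `π` of `n` letters and all set
partitions `β` of the set of letters of `α(α-1)⋯(α-|β|+1)` times the fundamental quasisymmetric
function of the descent set of the insertion tableau of `f_β(π)`. -/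
theorem result (n : ℕ) :
    jackOneRow n =
      ∑ π : Equiv.Perm (Fin n), ∑ β : Finpartition (univ : Finset (Fin n)),
        (∏ k ∈ range β.parts.card, ((Polynomial.X : Polynomial ℤ) - (k : Polynomial ℤ))) •
          fundamental n (descents n (insertionTableau (word (refill β π)))) := by
  rw [Q162Jack.main n]
  unfold rhs
  have h : ∀ k : ℕ, descPochhammer ℤ k =
      ∏ j ∈ range k, ((Polynomial.X : Polynomial ℤ) - (j : Polynomial ℤ)) := by
    intro k
    induction k with
    | zero => simp
    | succ k ih => rw [descPochhammer_succ_right, ih, Finset.prod_range_succ]
  simp only [h]

end Pool.Agent.Results.MP_d77547_co.SetPartitionExpansion
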